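import Mathlib

/-!
Perimeter-plus-volume functionals on metric measure spaces, and an atomic measure on the real line
for which the interval `(0,1)` has perimeter zero although `0` is an atom.
-/

set_option autoImplicit false

open MeasureTheory Set Metric Filter Topology
open scoped ENNReal NNReal

namespace Pool.Agent.R223.ClosedRep

variable {X : Type*} [MetricSpace X] [MeasurableSpace X]

/-- `Lip(f|_S)`: the infimum of the Lipschitz constants of `f` on `S` (`∞` if there is none). -/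
noncomputable def lipConst (f : X → ℝ) (S : Set X) : ℝ≥0∞ :=
  ⨅ (K : ℝ≥0) (_ : LipschitzOnWith K f S), (K : ℝ≥0∞)

/-- The asymptotic slope `lip_a(f)(x) = inf_{r>0} Lip(f|_{B_r(x)})` of a function `f` on the open
set `A` at the point `x`. -/
noncomputable def asymSlope (f : X → ℝ) (A : Set X) (x : X) : ℝ≥0∞ :=
  ⨅ (r : ℝ) (_ : 0 < r), lipConst f (ball x r ∩ A)

/-- `f' n → f` in `L¹_loc(m|_A)`: every point of `A` has a ball on which the `L¹` distance
tends to `0`. -/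
def TendstoL1loc (m : Measure X) (A : Set X) (f' : ℕ → X → ℝ) (f : X → ℝ) : Prop :=
  ∀ x ∈ A, ∃ r > 0,
    Tendsto (fun n => ∫⁻ y in ball x r ∩ A, ENNReal.ofReal |f' n y - f y| ∂m) atTop (𝓝 0)

/-- The total variation `|Df|(A)` of `f` on the open set `A`: the infimum of
`liminf ∫_A lip_a(f_n) dm` over the sequences of locally Lipschitz functions `f_n` on `A` with
`f_n → f` in `L¹_loc(m|_A)`. -/
noncomputable def totalVariation (m : Measure X) (f : X → ℝ) (A : Set X) : ℝ≥0∞ :=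
  ⨅ (f' : ℕ → X → ℝ) (_ : ∀ n, LocallyLipschitzOn A (f' n)) (_ : TendstoL1loc m A f' f),
    liminf (fun n => ∫⁻ x in A, asymSlope (f' n) A x ∂m) atTop

/-- The perimeter `Per(E) = |Dχ_E|(X)`. -/
noncomputable def perimeter (m : Measure X) (E : Set X) : ℝ≥0∞ :=
  totalVariation m (E.indicator fun _ => 1) univ

/-- `M_lam(A) = Per(A) + lam m(Ω ∖ A)`. -/
noncomputable def M (m : Measure X) (Ω : Set X) (lam : ℝ) (A : Set X) : ℝ≥0∞ :=
  perimeter m A + ENNReal.ofReal lam * m (Ω \ A)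

/-- `M~_lam(A) = Per(A) + lam m(Ω Δ A)`. -/
noncomputable def Mtilde (m : Measure X) (Ω : Set X) (lam : ℝ) (A : Set X) : ℝ≥0∞ :=
  perimeter m A + ENNReal.ofReal lam * m (symmDiff Ω A)

/-- `E` minimizes `M_lam` among the Borel subsets of `Ω`. -/
def IsMinimizerM (m : Measure X) (Ω : Set X) (lam : ℝ) (E : Set X) : Prop :=
  MeasurableSet E ∧ E ⊆ Ω ∧ ∀ A, MeasurableSet A → A ⊆ Ω → M m Ω lam E ≤ M m Ω lam A

/-- `E` minimizes `M~_lam` among the Borel subsets of `X`. -/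
def IsMinimizerMtilde (m : Measure X) (Ω : Set X) (lam : ℝ) (E : Set X) : Prop :=
  MeasurableSet E ∧ ∀ A, MeasurableSet A → Mtilde m Ω lam E ≤ Mtilde m Ω lam A

/-- `E` has a closed representative. -/
def HasClosedRepresentative (m : Measure X) (E : Set X) : Prop :=
  ∃ C : Set X, IsClosed C ∧ m (symmDiff E C) = 0

theorem lipConst_zero_of_const {f : X → ℝ} {S : Set X} {c : ℝ} (h : ∀ x ∈ S, f x = c) :
    lipConst f S = 0 := by
  unfold lipConst
  refine le_antisymm ?_ bot_le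
  have h1 : LipschitzOnWith 0 f S := by
    intro x hx y hy
    rw [h x hx, h y hy]
    simp
  exact (iInf₂_le (0 : ℝ≥0) h1).trans (by simp)

theorem asymSlope_zero_of_eventually {f : X → ℝ} {x : X} {c : ℝ} (h : ∀ᶠ y in 𝓝 x, f y = c)
    (A : Set X) : asymSlope f A x = 0 := by
  obtain ⟨r, hr, hr'⟩ := Metric.eventually_nhds_iff_ball.1 h
  refine le_antisymm ?_ bot_le
  refine (iInf₂_le r hr).trans ?_
  rw [lipConst_zero_of_const (c := c)]
  intro y hy
  exact hr' y hy.1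

/-- The measure `δ_0 + ∑_k 4^{-(k+1)} δ_{1/(k+2)}` on the real line. -/
noncomputable def mu : Measure ℝ :=
  Measure.dirac 0 + Measure.sum fun k : ℕ => ((2⁻¹ : ℝ≥0∞) ^ (k + 1) * (2⁻¹ : ℝ≥0∞) ^ (k + 1)) •
    Measure.dirac (1 / ((k : ℝ) + 2))

theorem lintegral_mu (g : ℝ → ℝ≥0∞) : ∫⁻ x, g x ∂mu =
    g 0 + ∑' k : ℕ, ((2⁻¹ : ℝ≥0∞) ^ (k + 1) * (2⁻¹ : ℝ≥0∞) ^ (k + 1)) * g (1 / ((k : ℝ) + 2)) := by
  unfold mu
  rw [lintegral_add_measure, lintegral_dirac, lintegral_sum_measure]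
  congr 1
  refine tsum_congr fun k => ?_
  rw [lintegral_smul_measure, lintegral_dirac, smul_eq_mul]

theorem tsum_half : ∑' k : ℕ, (2⁻¹ : ℝ≥0∞) ^ (k + 1) = 1 := by
  have := ENNReal.tsum_geometric_add_one (2⁻¹ : ℝ≥0∞)
  rw [this]
  rw [ENNReal.one_sub_inv_two, inv_inv]
  exact ENNReal.inv_mul_cancel (by norm_num) (by norm_num)

instance : IsFiniteMeasure mu := by
  constructor
  have h := lintegral_mu (fun _ => 1)
  rw [lintegral_one] at h
  rw [h]
  have : ∑' k : ℕ, ((2⁻¹ : ℝ≥0∞) ^ (k + 1) * (2⁻¹ : ℝ≥0∞) ^ (k + 1)) * 1 ≤ 1 := by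
    refine le_trans ?_ tsum_half.le
    refine ENNReal.tsum_le_tsum fun k => ?_
    rw [mul_one]
    calc (2⁻¹ : ℝ≥0∞) ^ (k + 1) * (2⁻¹ : ℝ≥0∞) ^ (k + 1) ≤ 1 * (2⁻¹ : ℝ≥0∞) ^ (k + 1) := by
          gcongr
          exact pow_le_one₀ (by simp) (by simp)
      _ = _ := one_mul _
  exact lt_of_le_of_lt (add_le_add le_rfl this) (by norm_num)

theorem mu_zero : 1 ≤ mu {0} := by
  unfold mu
  rw [Measure.add_apply]
  exact le_add_right (by simp)

theorem mu_atom (k : ℕ) : 0 < mu {1 / ((k : ℝ) + 2)} := by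
  unfold mu
  rw [Measure.add_apply]
  refine lt_of_lt_of_le ?_ (le_add_left le_rfl)
  rw [Measure.sum_apply _ (measurableSet_singleton _)]
  refine lt_of_lt_of_le ?_ (ENNReal.le_tsum k)
  rw [Measure.smul_apply, Measure.dirac_apply_of_mem (by simp), smul_eq_mul, mul_one]
  have h : (0 : ℝ≥0∞) < (2⁻¹ : ℝ≥0∞) ^ (k + 1) := ENNReal.pow_pos (by simp) _
  exact ENNReal.mul_pos h.ne' h.ne'

/-- The recovery sequence. -/
noncomputable def recov (n : ℕ) (x : ℝ) : ℝ :=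
  max 0 (min 1 (2 * ((n : ℝ) + 2) * ((n : ℝ) + 3) * (x - (1 / ((n : ℝ) + 3)) ) - 1/2))

theorem recov_lip (n : ℕ) : ∃ K : ℝ≥0, LipschitzWith K (recov n) := by
  have h1 : LipschitzWith (Real.toNNReal (2 * ((n : ℝ) + 2) * ((n : ℝ) + 3)))
      (fun x : ℝ => 2 * ((n : ℝ) + 2) * ((n : ℝ) + 3) * (x - (1 / ((n : ℝ) + 3)) ) - 1/2) := by
    refine LipschitzWith.of_dist_le_mul fun x y => ?_
    rw [Real.dist_eq, Real.dist_eq, Real.coe_toNNReal _ (by positivity)]
    have : 2 * ((n : ℝ) + 2) * ((n : ℝ) + 3) * (x - 1 / ((n : ℝ) + 3)) - 1 / 2 -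
        (2 * ((n : ℝ) + 2) * ((n : ℝ) + 3) * (y - 1 / ((n : ℝ) + 3)) - 1 / 2) =
        2 * ((n : ℝ) + 2) * ((n : ℝ) + 3) * (x - y) := by ring
    rw [this, abs_mul, abs_of_nonneg (by positivity)]
  exact ⟨_, (h1.const_min 1).const_max 0⟩

theorem recov_low {n : ℕ} {x : ℝ} (hx : x ≤ 1 / ((n : ℝ) + 3) + 1 / (4 * ((n : ℝ) + 2) * ((n : ℝ) + 3))) :
    recov n x = 0 := by
  unfold recov
  apply max_eq_left
  refine (min_le_right _ _).trans ?_
  have h2 : 2 * ((n : ℝ) + 2) * ((n : ℝ) + 3) * (x - 1 / ((n : ℝ) + 3)) ≤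
      2 * ((n : ℝ) + 2) * ((n : ℝ) + 3) * (1 / (4 * ((n : ℝ) + 2) * ((n : ℝ) + 3))) := by
    apply mul_le_mul_of_nonneg_left _ (by positivity)
    linarith
  have h3 : 2 * ((n : ℝ) + 2) * ((n : ℝ) + 3) * (1 / (4 * ((n : ℝ) + 2) * ((n : ℝ) + 3))) = 1 / 2 := by
    field_simp
    norm_num
  linarith

theorem recov_high {n : ℕ} {x : ℝ} (hx : 1 / ((n : ℝ) + 3) + 3 / (4 * ((n : ℝ) + 2) * ((n : ℝ) + 3)) ≤ x) :
    recov n x = 1 := by
  unfold recov
  have h2 : 2 * ((n : ℝ) + 2) * ((n : ℝ) + 3) * (3 / (4 * ((n : ℝ) + 2) * ((n : ℝ) + 3))) ≤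
      2 * ((n : ℝ) + 2) * ((n : ℝ) + 3) * (x - 1 / ((n : ℝ) + 3)) := by
    apply mul_le_mul_of_nonneg_left _ (by positivity)
    linarith
  have h3 : 2 * ((n : ℝ) + 2) * ((n : ℝ) + 3) * (3 / (4 * ((n : ℝ) + 2) * ((n : ℝ) + 3))) = 3 / 2 := by
    field_simp
    norm_num
  rw [min_eq_left (by linarith)]
  exact max_eq_right zero_le_one

theorem gap (n : ℕ) : 1 / ((n : ℝ) + 2) = 1 / ((n : ℝ) + 3) + 1 / (((n : ℝ) + 2) * ((n : ℝ) + 3)) := by
  field_simp
  ring

theorem recov_atom_low {n k : ℕ} (hk : n < k) : ∀ᶠ y in 𝓝 (1 / ((k : ℝ) + 2)), recov n y = 0 := by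
  have h1 : (1 / ((k : ℝ) + 2)) < 1 / ((n : ℝ) + 3) + 1 / (4 * ((n : ℝ) + 2) * ((n : ℝ) + 3)) := by
    have h2 : (1 / ((k : ℝ) + 2)) ≤ 1 / ((n : ℝ) + 3) := by
      apply one_div_le_one_div_of_le (by positivity)
      have : (n : ℝ) + 1 ≤ k := by exact_mod_cast hk
      linarith
    have h3 : 0 < 1 / (4 * ((n : ℝ) + 2) * ((n : ℝ) + 3)) := by positivity
    linarith
  filter_upwards [eventually_lt_nhds h1] with y hy
  exact recov_low hy.le

theorem recov_zero_low (n : ℕ) : ∀ᶠ y in 𝓝 (0 : ℝ), recov n y = 0 := by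
  have h1 : (0 : ℝ) < 1 / ((n : ℝ) + 3) + 1 / (4 * ((n : ℝ) + 2) * ((n : ℝ) + 3)) := by positivity
  filter_upwards [eventually_lt_nhds h1] with y hy
  exact recov_low hy.le

theorem recov_atom_high {n k : ℕ} (hk : k ≤ n) : ∀ᶠ y in 𝓝 (1 / ((k : ℝ) + 2)), recov n y = 1 := by
  have h1 : 1 / ((n : ℝ) + 3) + 3 / (4 * ((n : ℝ) + 2) * ((n : ℝ) + 3)) < (1 / ((k : ℝ) + 2)) := by
    have h2 : (1 / ((n : ℝ) + 2)) ≤ 1 / ((k : ℝ) + 2) := by
      apply one_div_le_one_div_of_le (by positivity)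
      have : (k : ℝ) ≤ n := by exact_mod_cast hk
      linarith
    have h3 : 3 / (4 * ((n : ℝ) + 2) * ((n : ℝ) + 3)) < 1 / (((n : ℝ) + 2) * ((n : ℝ) + 3)) := by
      rw [div_lt_div_iff₀ (by positivity) (by positivity)]
      have : 0 < ((n : ℝ) + 2) * ((n : ℝ) + 3) := by positivity
      nlinarith
    rw [gap n] at h2
    linarith
  filter_upwards [eventually_gt_nhds h1] with y hy
  exact recov_high hy.le

theorem atom_mem (k : ℕ) : 1 / ((k : ℝ) + 2) ∈ Ioo (0 : ℝ) 1 := by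
  refine ⟨by positivity, ?_⟩
  rw [div_lt_one (by positivity)]
  have : (0 : ℝ) ≤ k := by positivity
  linarith

theorem perimeter_zero : perimeter mu (Ioo (0 : ℝ) 1) = 0 := by
  refine le_antisymm ?_ bot_le
  unfold perimeter totalVariation
  refine (iInf_le _ recov).trans ((iInf₂_le ?_ ?_).trans ?_)
  · intro n
    obtain ⟨K, hK⟩ := recov_lip n
    exact (hK.locallyLipschitz).locallyLipschitzOn
  · intro x _
    refine ⟨1, one_pos, ?_⟩
    have hb : ∀ n : ℕ, ∫⁻ y in ball x 1 ∩ univ, ENNReal.ofReal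
        |recov n y - (Ioo (0 : ℝ) 1).indicator (fun _ => 1) y| ∂mu ≤ (2⁻¹ : ℝ≥0∞) ^ (n + 1) := by
      intro n
      refine (setLIntegral_le_lintegral _ _).trans ?_
      rw [lintegral_mu]
      have h0 : ENNReal.ofReal |recov n 0 - (Ioo (0 : ℝ) 1).indicator (fun _ => (1 : ℝ)) 0| = 0 := by
        rw [(recov_zero_low n).self_of_nhds, indicator_of_notMem (by simp)]
        simp
      rw [h0, zero_add]
      calc _ ≤ ∑' k : ℕ, (2⁻¹ : ℝ≥0∞) ^ (n + 1) * (2⁻¹ : ℝ≥0∞) ^ (k + 1) := by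
            refine ENNReal.tsum_le_tsum fun k => ?_
            rw [indicator_of_mem (atom_mem k)]
            rcases le_or_gt k n with hk | hk
            · rw [(recov_atom_high hk).self_of_nhds]
              simp
            · rw [(recov_atom_low hk).self_of_nhds]
              have h1 : ENNReal.ofReal |(0 : ℝ) - 1| = 1 := by norm_num
              rw [h1, mul_one]
              have h2 : (2⁻¹ : ℝ≥0∞) ^ (k + 1) ≤ (2⁻¹ : ℝ≥0∞) ^ (n + 1) :=
                pow_le_pow_right_of_le_one' (by simp) (by omega)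
              exact mul_le_mul' h2 le_rfl
        _ = (2⁻¹ : ℝ≥0∞) ^ (n + 1) := by
            rw [ENNReal.tsum_mul_left, tsum_half, mul_one]
    refine tendsto_of_tendsto_of_tendsto_of_le_of_le tendsto_const_nhds ?_ (fun _ => bot_le) hb
    have := ENNReal.tendsto_pow_atTop_nhds_zero_of_lt_one (r := 2⁻¹) (by simp)
    exact this.comp (tendsto_add_atTop_nat 1)
  · have hz : ∀ n : ℕ, ∫⁻ x in univ, asymSlope (recov n) univ x ∂mu = 0 := by
      intro n
      rw [setLIntegral_univ, lintegral_mu]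
      rw [asymSlope_zero_of_eventually (recov_zero_low n), zero_add]
      rw [ENNReal.tsum_eq_zero]
      intro k
      rcases le_or_gt k n with hk | hk
      · rw [asymSlope_zero_of_eventually (recov_atom_high hk), mul_zero]
      · rw [asymSlope_zero_of_eventually (recov_atom_low hk), mul_zero]
    simp only [hz]
    simp

theorem tendsto_atoms : Tendsto (fun k : ℕ => 1 / ((k : ℝ) + 2)) atTop (𝓝 0) := by
  have h := tendsto_one_div_add_atTop_nhds_zero_nat (𝕜 := ℝ)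
  have h2 := h.comp (tendsto_add_atTop_nat 1)
  refine h2.congr fun k => ?_
  simp only [Function.comp]
  push_cast
  ring_nf

/-- A set which contains all atoms `1/(k+2)` but not `0` has no closed representative. -/
theorem no_closed {E : Set ℝ} (h0 : (0 : ℝ) ∉ E) (h1 : ∀ k : ℕ, 1 / ((k : ℝ) + 2) ∈ E) :
    ¬ HasClosedRepresentative mu E := by
  rintro ⟨C, hC, hm⟩
  have hat : ∀ k : ℕ, 1 / ((k : ℝ) + 2) ∈ C := by
    intro k
    by_contra hk
    have : {1 / ((k : ℝ) + 2)} ⊆ symmDiff E C := by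
      rintro _ rfl
      exact Or.inl ⟨h1 k, hk⟩
    have h2 := measure_mono (μ := mu) this
    rw [hm] at h2
    exact absurd (mu_atom k) (not_lt.2 h2)
  have h0C : (0 : ℝ) ∈ C := hC.mem_of_tendsto tendsto_atoms (Eventually.of_forall hat)
  have : {(0 : ℝ)} ⊆ symmDiff E C := by
    rintro _ rfl
    exact Or.inr ⟨h0C, h0⟩
  have h2 := measure_mono (μ := mu) this
  rw [hm] at h2
  exact absurd (mu_zero.trans h2) (by norm_num)

end Pool.Agent.R223.ClosedRep
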